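import Mathlib
import Pool.Agent.KS6_71.BO.Low

/-!
# MP_0fda35_co: Bohr sets in sums of images of a dense set, with many solutions

Homomorphisms `φ_j : G_j → H` between different abelian groups, at least three of them with image
of index at most `n`. The density of the solutions of `∑ φ_j(x_j) = g`, `x_j ∈ A_j`, is almost as
large as for `g = g₀`, for all `g` in `g₀` plus a Bohr set of controlled rank and radius. Two
maps with image of finite index do not suffice, even for the existence of some Bohr set.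
-/

set_option autoImplicit false

open Finset

namespace Pool.Agent.Results.MP_0fda35_co.ManySolutions

open Pool.Agent.V11180.BG (dstar)
open Pool.Agent.KS6_71.BO

universe u

/-- the Bohr set of the characters in `X` and radius `η`; its rank is the number of elements
of `X` -/
def bohr {G : Type u} [AddCommGroup G] (X : Finset (AddChar G Circle)) (η : ℝ) : Set G :=
  {g | ∀ χ ∈ X, ‖((χ g : Circle) : ℂ) - 1‖ < η}

/-- the set `φ₁(A) + ⋯ + φ_d(A)` -/
def imageSum {G H : Type u} [AddCommGroup G] [AddCommGroup H] {d : ℕ} (φ : Fin d → G →+ H)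
    (A : Set G) : Set H :=
  {g | ∃ a : Fin d → G, (∀ j, a j ∈ A) ∧ g = ∑ j, φ j (a j)}

/-- the subgroup of the `x` with `∑ φ_j(x_j) = 0` -/
def kernel {ι : Type} [Fintype ι] {G : ι → Type u} [∀ j, AddCommGroup (G j)]
    {H : Type u} [AddCommGroup H] (φ : ∀ j, G j →+ H) : AddSubgroup (∀ j, G j) where
  carrier := {x | ∑ j, φ j (x j) = 0}
  zero_mem' := by simp
  add_mem' := by
    intro a b ha hb
    simp only [Set.mem_ofPred_eq, Pi.add_apply, map_add, sum_add_distrib] at *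
    rw [ha, hb, add_zero]
  neg_mem' := by
    intro a ha
    simp only [Set.mem_ofPred_eq, Pi.neg_apply, map_neg, sum_neg_distrib] at *
    rw [ha, neg_zero]

/-- the upper Banach density, within the kernel of `∑ φ_j`, of the set of the `s` with
`s + t ∈ ∏ A_j`; it is the density of the solutions `x = s + t ∈ ∏ A_j` of
`∑ φ_j(x_j) = ∑ φ_j(t_j)` -/
noncomputable def solDensity {ι : Type} [Fintype ι] {G : ι → Type u} [∀ j, AddCommGroup (G j)]
    {H : Type u} [AddCommGroup H] (φ : ∀ j, G j →+ H) (A : ∀ j, Set (G j)) (t : ∀ j, G j) : ℝ :=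
  dstar {s : kernel φ | ∀ j, s.1 j + t j ∈ A j}

/-- `g` is of the form `∑ φ_j(t_j)`, and for every such `t` the solutions `x ∈ ∏ A_j` of
`∑ φ_j(x_j) = g` have density at least `c` -/
def ManySolutions {ι : Type} [Fintype ι] {G : ι → Type u} [∀ j, AddCommGroup (G j)]
    {H : Type u} [AddCommGroup H] (φ : ∀ j, G j →+ H) (A : ∀ j, Set (G j)) (g : H) (c : ℝ) : Prop :=
  (∃ t : ∀ j, G j, ∑ j, φ j (t j) = g) ∧
    ∀ t : ∀ j, G j, ∑ j, φ j (t j) = g → c ≤ solDensity φ A t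

theorem kernel_eq {ι : Type} [Fintype ι] {G : ι → Type u} [∀ j, AddCommGroup (G j)]
    {H : Type u} [AddCommGroup H] (φ : ∀ j, G j →+ H) : kernel φ = S0 φ := by
  ext x
  rfl

theorem solDensity_eq {ι : Type} [Fintype ι] {G : ι → Type u} [∀ j, AddCommGroup (G j)]
    {H : Type u} [AddCommGroup H] (φ : ∀ j, G j →+ H) (A : ∀ j, Set (G j)) (t : ∀ j, G j) :
    solDensity φ A t = dstar (sol φ A t) := by
  unfold solDensity sol
  congr 1

/-- the sum of the `φ_j` over the block `i` of the partition `p` of the indices -/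
def blockSum {G H : Type u} [AddCommGroup G] [AddCommGroup H] {d : ℕ} (φ : Fin d → G →+ H)
    (p : Fin d → Fin d) (i : Fin d) : G →+ H := ∑ j ∈ univ.filter (fun j => p j = i), φ j

theorem blockSum_sum {G H : Type u} [AddCommGroup G] [AddCommGroup H] {d : ℕ}
    (φ : Fin d → G →+ H) (p : Fin d → Fin d) : ∑ i, blockSum φ p i = ∑ j, φ j := by
  unfold blockSum
  exact sum_fiberwise_of_maps_to (fun _ _ => mem_univ _) _

theorem imageSum_block {G H : Type u} [AddCommGroup G] [AddCommGroup H] {d : ℕ}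
    (φ : Fin d → G →+ H) (p : Fin d → Fin d) (A : Set G) :
    imageSum (blockSum φ p) A ⊆ imageSum φ A := by
  rintro g ⟨a, ha, rfl⟩
  refine ⟨fun j => a (p j), fun j => ha _, ?_⟩
  rw [← sum_fiberwise_of_maps_to (s := univ) (t := univ) (g := p) (fun _ _ => mem_univ _)
    (fun j => φ j (a (p j)))]
  refine sum_congr rfl fun i _ => ?_
  unfold blockSum
  rw [AddMonoidHom.finsetSum_apply]
  refine sum_congr rfl fun j hj => ?_
  rw [(mem_filter.1 hj).2]

theorem part1 : ∀ (ε : ℝ), 0 < ε → ∀ n : ℕ, ∃ (k : ℕ) (η : ℝ), 0 < η ∧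
      ∀ (ι : Type) [Fintype ι] (G : ι → Type u) [∀ j, AddCommGroup (G j)] (H : Type u)
        [AddCommGroup H] (φ : ∀ j, G j →+ H),
        (∃ I : Finset ι, 3 ≤ I.card ∧
          ∀ j ∈ I, (φ j).range.index ≠ 0 ∧ (φ j).range.index ≤ n) →
        ∀ (A : ∀ j, Set (G j)) (t : ∀ j, G j), ∃ X : Finset (AddChar H Circle), X.card ≤ k ∧
          ∀ g ∈ bohr X η, ManySolutions φ A (∑ j, φ j (t j) + g) (solDensity φ A t - ε) := by
  classical
  intro ε hε n
  obtain ⟨K, η, hη, h⟩ := bohr_main.{u} ε hε n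
  refine ⟨K, η, hη, ?_⟩
  rintro ι _ G _ H _ φ ⟨I, hI, hidx⟩ A t
  obtain ⟨i, hi, j, hj, l, hl, hij, hil, hjl⟩ := Finset.two_lt_card.1 hI
  obtain ⟨X, hX, hX2⟩ := h ι G H φ i j l hij hil hjl (by
    rintro q (rfl | rfl | rfl)
    · exact hidx _ hi
    · exact hidx _ hj
    · exact hidx _ hl) (fun j => {x | x + t j ∈ A j})
  refine ⟨X, hX, fun g hg => ?_⟩
  have e0 : ∀ u : ∀ j, G j, sol φ (fun j => {x | x + t j ∈ A j}) u = sol φ A (u + t) := by
    intro u
    ext s
    show (∀ j, (s.1 j + u j) + t j ∈ A j) ↔ ∀ j, s.1 j + (u j + t j) ∈ A j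
    refine forall_congr' fun j => ?_
    rw [add_assoc]
  obtain ⟨u, hu, hd⟩ := hX2 g hg
  rw [e0, e0, zero_add] at hd
  have hsum : ∑ j, φ j ((u + t) j) = ∑ j, φ j (t j) + g := by
    simp only [Pi.add_apply, map_add, sum_add_distrib]
    rw [hu, add_comm]
  refine ⟨⟨u + t, hsum⟩, fun t' ht' => ?_⟩
  rw [solDensity_eq, solDensity_eq, dstar_sol_eq φ A t' (u + t) (ht'.trans hsum.symm)]
  exact hd

theorem part2 : ∀ (d : ℕ) (δ : ℝ), 0 < δ → ∀ n : ℕ, ∃ (k : ℕ) (η c : ℝ), 0 < η ∧ 0 < c ∧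
      ∀ (G H : Type u) [AddCommGroup G] [AddCommGroup H] (φ : Fin d → G →+ H), ∑ j, φ j = 0 →
        (∃ I : Finset (Fin d), 3 ≤ I.card ∧
          ∀ j ∈ I, (φ j).range.index ≠ 0 ∧ (φ j).range.index ≤ n) →
        ∀ A : Set G, δ ≤ dstar A → ∃ X : Finset (AddChar H Circle), X.card ≤ k ∧
          bohr X η ⊆ imageSum φ A ∧
          ∀ g ∈ bohr X η, ManySolutions (G := fun _ => G) φ (fun _ => A) g c := by
  classical
  intro d δ hδ n
  by_cases hd : 1 ≤ d
  · obtain ⟨k, rfl⟩ : ∃ k, d = k + 1 := ⟨d - 1, by omega⟩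
    obtain ⟨c, hc, hc2⟩ := pos_sol.{u} k δ hδ
    obtain ⟨K, η, hη, h⟩ := part1.{u} (c / 2) (by linarith) n
    refine ⟨K, η, c / 2, hη, by linarith, ?_⟩
    intro G H _ _ φ hφ hI A hA
    obtain ⟨X, hX, hX2⟩ := h (Fin (k + 1)) (fun _ => G) H φ hI (fun _ => A) 0
    have h3 := hc2 G H φ hφ A hA
    rw [← solDensity_eq] at h3
    have h4 : ∀ g ∈ bohr X η, ManySolutions (G := fun _ => G) φ (fun _ => A) g (c / 2) := by
      intro g hg
      obtain ⟨h5, h6⟩ := hX2 g hg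
      have e : ∑ j, φ j ((0 : ∀ _ : Fin (k + 1), G) j) + g = g := by
        simp only [Pi.zero_apply, map_zero, sum_const_zero, zero_add]
      rw [e] at h5 h6
      exact ⟨h5, fun t ht => le_trans (by linarith) (h6 t ht)⟩
    refine ⟨X, hX, fun g hg => ?_, h4⟩
    obtain ⟨⟨t, ht⟩, h6⟩ := h4 g hg
    have h7 := h6 t ht
    rw [solDensity_eq] at h7
    obtain ⟨s, hs⟩ := nonempty_of_dstar (lt_of_lt_of_le (by linarith : (0 : ℝ) < c / 2) h7)
    refine ⟨fun j => s.1 j + t j, hs, ?_⟩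
    have h8 : ∑ j, φ j (s.1 j) = 0 := s.2
    simp only [map_add, sum_add_distrib]
    rw [h8, zero_add, ht]
  · refine ⟨0, 1, 1, by norm_num, by norm_num, ?_⟩
    rintro G H _ _ φ hφ ⟨I, hI, -⟩
    have : I.card ≤ d := by
      have := Finset.card_le_univ I
      rwa [Fintype.card_fin] at this
    omega

theorem part4 : ∀ (d : ℕ), 2 ≤ d → ∀ δ : ℝ, δ < 1 / 2 →
      ∃ (G : Type) (_ : AddCommGroup G) (φ : Fin d → G →+ G), Countable G ∧ ∑ j, φ j = 0 ∧
        (∃ I : Finset (Fin d), I.card = 2 ∧ ∀ j ∈ I, Function.Bijective (φ j)) ∧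
        ∃ A : Set G, δ ≤ dstar A ∧ ∀ (X : Finset (AddChar G Circle)) (η : ℝ), 0 < η →
          ¬ bohr X η ⊆ imageSum φ A := by
  classical
  intro d hd δ hδ
  obtain ⟨G, _, hG, h2, A, hA, hX⟩ := two_fail δ hδ
  let i0 : Fin d := ⟨0, by omega⟩
  let i1 : Fin d := ⟨1, by omega⟩
  have h01 : i0 ≠ i1 := by
    intro h
    have := congrArg Fin.val h
    simp [i0, i1] at this
  obtain ⟨φ, hφ0, hφ1, hφ⟩ : ∃ φ : Fin d → G →+ G, φ i0 = AddMonoidHom.id G ∧
      φ i1 = -AddMonoidHom.id G ∧ ∀ j, j ≠ i0 → j ≠ i1 → φ j = 0 :=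
    ⟨fun j => if j = i0 then AddMonoidHom.id G else if j = i1 then -AddMonoidHom.id G else 0,
      if_pos rfl, (if_neg h01.symm).trans (if_pos rfl), fun j h h' => (if_neg h).trans (if_neg h')⟩
  refine ⟨G, inferInstance, φ, hG, ?_, ⟨{i0, i1}, card_pair h01, ?_⟩, A, hA, ?_⟩
  · rw [← add_sum_erase univ _ (mem_univ i0), ← add_sum_erase (univ.erase i0) _
      (mem_erase.2 ⟨h01.symm, mem_univ i1⟩), sum_eq_zero]
    · rw [hφ0, hφ1, add_zero, add_neg_cancel]
    · intro j hj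
      exact hφ j (mem_erase.1 (mem_erase.1 hj).2).1 (mem_erase.1 hj).1
  · intro j hj
    rw [mem_insert, mem_singleton] at hj
    rcases hj with rfl | rfl
    · rw [hφ0]
      exact Function.bijective_id
    · rw [hφ1]
      exact (Equiv.neg G).bijective
  · intro X η hη hsub
    obtain ⟨g, hg, hgA⟩ := hX X
    obtain ⟨a, ha, hag⟩ := hsub (show g ∈ bohr X η by
      intro χ hχ
      rw [hg χ hχ, Circle.coe_one, sub_self, norm_zero]
      exact hη)
    refine hgA (a i0) (ha i0) (a i1) (ha i1) ?_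
    rw [hag, ← add_sum_erase univ _ (mem_univ i0), ← add_sum_erase (univ.erase i0) _
      (mem_erase.2 ⟨h01.symm, mem_univ i1⟩), sum_eq_zero]
    · rw [hφ0, hφ1, add_zero, sub_eq_add_neg]
      rfl
    · intro j hj
      rw [hφ j (mem_erase.1 (mem_erase.1 hj).2).1 (mem_erase.1 hj).1]
      rfl

/-- (1) the density of solutions is almost lower semicontinuous in the Bohr topology, uniformly;
(2) for maps with sum zero and one dense set, the sum of the images contains a Bohr set of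
controlled rank and radius on which the density of solutions is bounded below; (3) it contains
such a Bohr set already if three block sums of the maps have image of finite index; (4) two
automorphisms do not suffice, even for the existence of some Bohr set. -/
theorem result :
    (∀ (ε : ℝ), 0 < ε → ∀ n : ℕ, ∃ (k : ℕ) (η : ℝ), 0 < η ∧
      ∀ (ι : Type) [Fintype ι] (G : ι → Type u) [∀ j, AddCommGroup (G j)] (H : Type u)
        [AddCommGroup H] (φ : ∀ j, G j →+ H),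
        (∃ I : Finset ι, 3 ≤ I.card ∧
          ∀ j ∈ I, (φ j).range.index ≠ 0 ∧ (φ j).range.index ≤ n) →
        ∀ (A : ∀ j, Set (G j)) (t : ∀ j, G j), ∃ X : Finset (AddChar H Circle), X.card ≤ k ∧
          ∀ g ∈ bohr X η, ManySolutions φ A (∑ j, φ j (t j) + g) (solDensity φ A t - ε)) ∧
    (∀ (d : ℕ) (δ : ℝ), 0 < δ → ∀ n : ℕ, ∃ (k : ℕ) (η c : ℝ), 0 < η ∧ 0 < c ∧
      ∀ (G H : Type u) [AddCommGroup G] [AddCommGroup H] (φ : Fin d → G →+ H), ∑ j, φ j = 0 →
        (∃ I : Finset (Fin d), 3 ≤ I.card ∧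
          ∀ j ∈ I, (φ j).range.index ≠ 0 ∧ (φ j).range.index ≤ n) →
        ∀ A : Set G, δ ≤ dstar A → ∃ X : Finset (AddChar H Circle), X.card ≤ k ∧
          bohr X η ⊆ imageSum φ A ∧
          ∀ g ∈ bohr X η, ManySolutions (G := fun _ => G) φ (fun _ => A) g c) ∧
    (∀ (d : ℕ) (δ : ℝ), 0 < δ → ∀ n : ℕ, ∃ (k : ℕ) (η : ℝ), 0 < η ∧
      ∀ (G H : Type u) [AddCommGroup G] [AddCommGroup H] (φ : Fin d → G →+ H), ∑ j, φ j = 0 →
        (∃ (p : Fin d → Fin d) (I : Finset (Fin d)), 3 ≤ I.card ∧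
          ∀ i ∈ I, (blockSum φ p i).range.index ≠ 0 ∧ (blockSum φ p i).range.index ≤ n) →
        ∀ A : Set G, δ ≤ dstar A → ∃ X : Finset (AddChar H Circle), X.card ≤ k ∧
          bohr X η ⊆ imageSum φ A) ∧
    (∀ (d : ℕ), 2 ≤ d → ∀ δ : ℝ, δ < 1 / 2 →
      ∃ (G : Type) (_ : AddCommGroup G) (φ : Fin d → G →+ G), Countable G ∧ ∑ j, φ j = 0 ∧
        (∃ I : Finset (Fin d), I.card = 2 ∧ ∀ j ∈ I, Function.Bijective (φ j)) ∧
        ∃ A : Set G, δ ≤ dstar A ∧ ∀ (X : Finset (AddChar G Circle)) (η : ℝ), 0 < η →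
          ¬ bohr X η ⊆ imageSum φ A) := by
  refine ⟨part1, part2, ?_, part4⟩
  intro d δ hδ n
  obtain ⟨k, η, c, hη, hc, h⟩ := part2.{u} d δ hδ n
  refine ⟨k, η, hη, ?_⟩
  rintro G H _ _ φ hφ ⟨p, I, hI, hidx⟩ A hA
  obtain ⟨X, hX, hX2, -⟩ := h G H (blockSum φ p) (by rw [blockSum_sum, hφ]) ⟨I, hI, hidx⟩ A hA
  exact ⟨X, hX, hX2.trans (imageSum_block φ p A)⟩

end Pool.Agent.Results.MP_0fda35_co.ManySolutions
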